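import Pool.Agent.H1.ValA

namespace Pool.Agent.Results.MP_f04b5a_an.Both

open Metric Set Complex

/-- The class `S`: holomorphic and injective on the unit disc, `f 0 = 0`, `f' 0 = 1`. -/
def InS (f : ℂ → ℂ) : Prop :=
  DifferentiableOn ℂ f (ball 0 1) ∧ InjOn f (ball 0 1) ∧ f 0 = 0 ∧ deriv f 0 = 1

/-- `L` is the branch of `log (f z / z)` on the disc with `L 0 = 0`. -/
def IsLog (f L : ℂ → ℂ) : Prop :=
  DifferentiableOn ℂ L (ball 0 1) ∧ L 0 = 0 ∧ ∀ z ∈ ball (0 : ℂ) 1, f z = z * exp (L z)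

theorem result (α : ℝ) (h0 : 0 < α) (h1 : α < 1) :
    (∃ f g, InS f ∧ InS g ∧ ∃ w : ℂ,
      {z | z ∈ ball (0 : ℂ) 1 ∧ α * f z + (1 - α) * g z = w}.Infinite) ∧
    ∃ f g L M, InS f ∧ InS g ∧ IsLog f L ∧ IsLog g M ∧ ∃ w : ℂ,
      {z | z ∈ ball (0 : ℂ) 1 ∧ z * exp (α * L z + (1 - α) * M z) = w}.Infinite := by
  obtain ⟨f, g, a, b, c⟩ := Pool.Agent.H1.Val.arith h0 h1
  obtain ⟨L, M, d, e, k, l, m, n, o⟩ := Pool.Agent.H1.Val.geom h0 h1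
  exact ⟨⟨f, g, a, b, 1, c⟩, _, _, L, M, d, e, ⟨k, m, fun _ _ => rfl⟩, ⟨l, n, fun _ _ => rfl⟩, 1, o⟩

end Pool.Agent.Results.MP_f04b5a_an.Both
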